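import Mathlib

/-!
# Factorisable systems of bounded rank and the transfinite radical (MP_c15239_al)
-/

set_option autoImplicit false

universe u w

namespace H39.TR

/-- An object of `mod-R`: a right `R`-module (a module over `Rᵐᵒᵖ`) of finite length, that is,
noetherian and artinian. -/
structure Obj (R : Type u) [Ring R] where
  carrier : Type u
  [grp : AddCommGroup carrier]
  [mod : Module Rᵐᵒᵖ carrier]
  [noeth : IsNoetherian Rᵐᵒᵖ carrier]
  [artin : IsArtinian Rᵐᵒᵖ carrier]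

variable {R : Type u} [Ring R]

instance (A : Obj R) : AddCommGroup A.carrier := A.grp
instance (A : Obj R) : Module Rᵐᵒᵖ A.carrier := A.mod
instance (A : Obj R) : IsNoetherian Rᵐᵒᵖ A.carrier := A.noeth
instance (A : Obj R) : IsArtinian Rᵐᵒᵖ A.carrier := A.artin

/-- morphisms of `mod-R` -/
abbrev Mor (A B : Obj R) := A.carrier →ₗ[Rᵐᵒᵖ] B.carrier

/-- a class of morphisms (an ideal of the category, or any class) -/
abbrev Cls (R : Type u) [Ring R] := ∀ A B : Obj R, Set (Mor A B)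

/-- the radical: `1 - g f` is invertible for all `g : B → A` -/
def rad (R : Type u) [Ring R] : Cls R := fun A B =>
  {f | ∀ g : Mor B A, IsUnit (1 - (g ∘ₗ f : Module.End Rᵐᵒᵖ A.carrier))}

/-- the product: finite sums of composites `f g` with `f` in `I` and `g` in `J` -/
def prod (I J : Cls R) : Cls R := fun A B =>
  {h | h ∈ AddSubmonoid.closure
    {h : Mor A B | ∃ (C : Obj R) (f : Mor C B) (g : Mor A C), f ∈ I C B ∧ g ∈ J A C ∧ h = f ∘ₗ g}}

/-- `(radPow ν).1` is `rad^ν` (with `rad^0` = all morphisms), and `(radPow ν).2` is the factor by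
which one multiplies from `ν` to `ν + 1`: `rad` if `ν` is finite, `rad^l` if `ν = l + n` with `l`
a limit ordinal.  So `rad^(l+n) = (rad^l)^(n+1)` and `rad^l` is the intersection of the earlier
ones. -/
noncomputable def radPow (R : Type u) [Ring R] (ν : Ordinal.{w}) : Cls R × Cls R :=
  Ordinal.limitRecOn (motive := fun _ => Cls R × Cls R) ν
    (fun _ _ => Set.univ, rad R)
    (fun _ p => (prod p.1 p.2, p.2))
    (fun l _ ih => (fun A B => {f | ∀ μ (h : μ < l), f ∈ (ih μ h).1 A B},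
      fun A B => {f | ∀ μ (h : μ < l), f ∈ (ih μ h).1 A B}))

/-- the transfinite radical: the intersection of all `rad^ν` -/
def transRad (R : Type u) [Ring R] : Cls R := fun A B =>
  {f | ∀ ν : Ordinal.{w}, f ∈ (radPow R ν).1 A B}

/-- A factorisable system in `mod-R` with tuples of length `n`. -/
structure FactSys (R : Type u) [Ring R] (n : ℕ) where
  M : ℚ≥0 → Obj R
  a : ∀ α, Fin n → (M α).carrier
  f : ∀ α β : ℚ≥0, α < β → Mor (M α) (M β)
  comp : ∀ α β γ (h1 : α < β) (h2 : β < γ), f β γ h2 ∘ₗ f α β h1 = f α γ (h1.trans h2)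
  base : ∀ α (h : 0 < α) i, f 0 α h (a 0 i) = a α i
  nosplit : ∀ α β (h : α < β), ¬ ∃ g : Mor (M β) (M α), ∀ i, g (f α β h (a α i)) = a α i

/-- all maps of the system are in the class `I` -/
def FactSys.LiesIn {n : ℕ} (S : FactSys R n) (I : Cls R) : Prop :=
  ∀ α β (h : α < β), S.f α β h ∈ I (S.M α) (S.M β)

/-- `f` has rank at least `k`: the identity of `X_1 ⊕ ⋯ ⊕ X_k`, for some nonzero `X_i`, factors
through `f`. -/
def RankGE (k : ℕ) {A B : Obj R} (f : Mor A B) : Prop :=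
  ∃ (X : Fin k → Obj R) (x : ∀ i, Mor (X i) A) (y : ∀ i, Mor B (X i)),
    (∀ i, Nontrivial (X i).carrier) ∧ (∀ i, y i ∘ₗ f ∘ₗ x i = LinearMap.id) ∧
    ∀ i j, i ≠ j → y i ∘ₗ f ∘ₗ x j = 0

/-- `A` is a direct sum of at most `N` indecomposable modules: among any `N + 1` pairwise
orthogonal idempotent endomorphisms one is zero. -/
def WidthLE (N : ℕ) (A : Obj R) : Prop :=
  ∀ e : Fin (N + 1) → Module.End Rᵐᵒᵖ A.carrier, (∀ i, e i * e i = e i) →
    (∀ i j, i ≠ j → e i * e j = 0) → ∃ i, e i = 0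

/-- Fitting: a map outside the radical is split on some nonzero module. -/
theorem exists_split {A B : Obj R} (f : Mor A B) (hf : f ∉ rad R A B) :
    ∃ (X : Obj R) (x : Mor X A) (y : Mor B X), Nontrivial X.carrier ∧
      y ∘ₗ f ∘ₗ x = LinearMap.id := by
  unfold rad at hf
  simp only [Set.mem_ofPred_eq, not_forall] at hf
  obtain ⟨g, hg⟩ := hf
  set h : Module.End Rᵐᵒᵖ A.carrier := (g ∘ₗ f : Module.End Rᵐᵒᵖ A.carrier) with hh
  set h' : Module.End Rᵐᵒᵖ A.carrier := 1 - h with hh'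
  obtain ⟨m, hm1, hm⟩ : ∃ m : ℕ, 1 ≤ m ∧
      IsCompl (LinearMap.ker (h' ^ m)) (LinearMap.range (h' ^ m)) := by
    obtain ⟨m, hm⟩ := (LinearMap.eventually_isCompl_ker_pow_range_pow h').exists_forall_of_atTop
    exact ⟨m + 1, by omega, hm (m + 1) (by omega)⟩
  set K : Submodule Rᵐᵒᵖ A.carrier := LinearMap.ker (h' ^ m) with hK
  -- the kernel is nonzero
  have hKne : K ≠ ⊥ := by
    intro hbot
    apply hg
    have hinj : Function.Injective h' := by
      rw [← LinearMap.ker_eq_bot, eq_bot_iff]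
      intro v hv
      have : v ∈ K := by
        rw [hK, LinearMap.mem_ker]
        obtain ⟨k, rfl⟩ : ∃ k, m = k + 1 := ⟨m - 1, by omega⟩
        rw [pow_succ, Module.End.mul_apply, LinearMap.mem_ker.1 hv, map_zero]
      rw [hbot] at this
      exact this
    have hbij : Function.Bijective h' := IsArtinian.bijective_of_injective_endomorphism h' hinj
    exact (Module.End.isUnit_iff h').2 hbij
  have hstab : ∀ v ∈ K, h' v ∈ K := by
    intro v hv
    rw [hK, LinearMap.mem_ker] at hv ⊢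
    have : (h' ^ m) (h' v) = h' ((h' ^ m) v) := by
      rw [← Module.End.mul_apply, ← Module.End.mul_apply, ← pow_succ, ← pow_succ']
    rw [this, hv, map_zero]
  have hstab2 : ∀ v ∈ K, h v ∈ K := by
    intro v hv
    have : h v = v - h' v := by rw [hh']; simp
    rw [this]
    exact K.sub_mem hv (hstab v hv)
  -- h restricted to K is injective
  set hK' : Module.End Rᵐᵒᵖ K := h.restrict hstab2 with hhK'
  have hinjK : Function.Injective hK' := by
    rw [← LinearMap.ker_eq_bot, eq_bot_iff]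
    intro v hv
    have h0 : h (v : A.carrier) = 0 := by
      have := congrArg Subtype.val (LinearMap.mem_ker.1 hv)
      simpa [hhK'] using this
    have h1 : h' (v : A.carrier) = v := by rw [hh']; simp [h0]
    have h2 : ∀ k : ℕ, (h' ^ k) (v : A.carrier) = v := by
      intro k
      induction k with
      | zero => simp
      | succ k ih => rw [pow_succ, Module.End.mul_apply, h1, ih]
    have h3 : (h' ^ m) (v : A.carrier) = 0 := LinearMap.mem_ker.1 v.2
    rw [h2 m] at h3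
    exact (Submodule.mem_bot _).2 (Subtype.ext h3)
  have hbijK : Function.Bijective hK' := IsArtinian.bijective_of_injective_endomorphism hK' hinjK
  let E : K ≃ₗ[Rᵐᵒᵖ] K := LinearEquiv.ofBijective hK' hbijK
  let X : Obj R := ⟨K⟩
  let pr : A.carrier →ₗ[Rᵐᵒᵖ] K := K.projectionOnto _ hm
  refine ⟨X, K.subtype, (E.symm : K →ₗ[Rᵐᵒᵖ] K) ∘ₗ pr ∘ₗ g, ?_, ?_⟩
  · exact Submodule.nontrivial_iff_ne_bot.2 hKne
  · apply LinearMap.ext
    intro v
    have h1 : pr (g (f (v : A.carrier))) = hK' v := by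
      have h2 : g (f (v : A.carrier)) = ((hK' v : K) : A.carrier) := rfl
      rw [h2]
      exact Submodule.projectionOnto_apply_left hm (hK' v)
    show E.symm (pr (g (f (v : A.carrier)))) = v
    rw [h1]
    exact E.symm_apply_apply v

theorem rankGE_of_fintype {k : ℕ} {A B : Obj R} {f : Mor A B} {ι : Type} [Fintype ι]
    (hι : Fintype.card ι = k) (X : ι → Obj R) (x : ∀ i, Mor (X i) A) (y : ∀ i, Mor B (X i))
    (hX : ∀ i, Nontrivial (X i).carrier) (h1 : ∀ i, y i ∘ₗ f ∘ₗ x i = LinearMap.id)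
    (h0 : ∀ i j, i ≠ j → y i ∘ₗ f ∘ₗ x j = 0) : RankGE k f := by
  let e : ι ≃ Fin k := Fintype.equivFinOfCardEq hι
  exact ⟨fun i => X (e.symm i), fun i => x (e.symm i), fun i => y (e.symm i),
    fun i => hX _, fun i => h1 _, fun i j hij => h0 _ _ (fun h => hij (e.symm.injective h))⟩

/-- propagation of the tuple -/
theorem FactSys.tup {n : ℕ} (S : FactSys R n) {γ δ : ℚ≥0} (h : γ < δ) (i : Fin n) :
    S.f γ δ h (S.a γ i) = S.a δ i := by
  rcases eq_or_lt_of_le (zero_le : (0 : ℚ≥0) ≤ γ) with h0 | h0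
  · subst h0
    exact S.base δ h i
  · rw [← S.base γ h0 i, ← S.base δ (h0.trans h) i, ← S.comp 0 γ δ h0 h]
    rfl

theorem FactSys.compApply {n : ℕ} (S : FactSys R n) {γ δ ε : ℚ≥0} (h : γ < δ) (h' : δ < ε)
    (m : (S.M γ).carrier) : S.f δ ε h' (S.f γ δ h m) = S.f γ ε (h.trans h') m := by
  rw [← S.comp γ δ ε h h']
  rfl

/-- the main step: if the rank is constant on an interval, the system splits there -/
theorem step {n : ℕ} (S : FactSys R n) (k : ℕ) (α β : ℚ≥0) (hαβ : α < β)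
    (hk : RankGE k (S.f α β hαβ))
    (hk1 : ∀ γ δ (h : γ < δ), α < γ → δ < β → ¬ RankGE (k + 1) (S.f γ δ h)) :
    ∃ S' : FactSys R n, S'.LiesIn (rad R) := by
  classical
  obtain ⟨X, x, y, hX, h1, h0⟩ := hk
  have h1' : ∀ i (v : (X i).carrier), y i (S.f α β hαβ (x i v)) = v := fun i v =>
    LinearMap.congr_fun (h1 i) v
  have h0' : ∀ i j, i ≠ j → ∀ v : (X j).carrier, y i (S.f α β hαβ (x j v)) = 0 :=
    fun i j hij v => LinearMap.congr_fun (h0 i j hij) v
  -- the idempotents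
  let P : ∀ γ : Set.Ioo α β, Module.End Rᵐᵒᵖ (S.M γ).carrier := fun γ =>
    ∑ i, (S.f α γ γ.2.1 ∘ₗ x i) ∘ₗ (y i ∘ₗ S.f γ β γ.2.2)
  have hP : ∀ (γ : Set.Ioo α β) (m : (S.M γ).carrier),
      P γ m = ∑ i, S.f α γ γ.2.1 (x i (y i (S.f γ β γ.2.2 m))) := by
    intro γ m
    simp [P, LinearMap.sum_apply]
  -- (b)
  have hb : ∀ (γ : Set.Ioo α β) (j : Fin k) (v : (X j).carrier),
      P γ (S.f α γ γ.2.1 (x j v)) = S.f α γ γ.2.1 (x j v) := by
    intro γ j v
    rw [hP, Finset.sum_eq_single j]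
    · rw [S.compApply γ.2.1 γ.2.2, h1' j v]
    · intro i _ hij
      rw [S.compApply γ.2.1 γ.2.2, h0' i j hij v, map_zero, map_zero]
    · intro h
      exact absurd (Finset.mem_univ j) h
  -- (a)
  have ha : ∀ (γ : Set.Ioo α β) (j : Fin k) (m : (S.M γ).carrier),
      y j (S.f γ β γ.2.2 (P γ m)) = y j (S.f γ β γ.2.2 m) := by
    intro γ j m
    rw [hP, map_sum, map_sum, Finset.sum_eq_single j]
    · rw [S.compApply γ.2.1 γ.2.2, h1' j]
    · intro i _ hij
      rw [S.compApply γ.2.1 γ.2.2, h0' j i (Ne.symm hij)]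
    · intro h
      exact absurd (Finset.mem_univ j) h
  -- (c)
  have hc : ∀ (γ δ : Set.Ioo α β) (h : (γ : ℚ≥0) < δ) (m : (S.M γ).carrier),
      S.f γ δ h (P γ m) = P δ (S.f γ δ h m) := by
    intro γ δ h m
    rw [hP, hP, map_sum]
    refine Finset.sum_congr rfl fun i _ => ?_
    rw [S.compApply γ.2.1 h, S.compApply h δ.2.2]
  -- (d)
  have hd : ∀ (γ : Set.Ioo α β) (m : (S.M γ).carrier), P γ (P γ m) = P γ m := by
    intro γ m
    conv_lhs => rw [hP γ m, map_sum]
    rw [hP γ m]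
    exact Finset.sum_congr rfl fun i _ => hb γ i _
  -- the kernels
  let K : ∀ γ : Set.Ioo α β, Submodule Rᵐᵒᵖ (S.M γ).carrier := fun γ => LinearMap.ker (P γ)
  have hK : ∀ (γ : Set.Ioo α β) (m : (S.M γ).carrier), m ∈ K γ ↔ P γ m = 0 := fun γ m =>
    LinearMap.mem_ker
  have hQ : ∀ (γ : Set.Ioo α β) (m : (S.M γ).carrier), m - P γ m ∈ K γ := by
    intro γ m
    rw [hK, map_sub, hd, sub_self]
  let pr : ∀ γ : Set.Ioo α β, (S.M γ).carrier →ₗ[Rᵐᵒᵖ] K γ := fun γ =>
    LinearMap.codRestrict (K γ) (LinearMap.id - P γ) (fun m => hQ γ m)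
  have hpr : ∀ (γ : Set.Ioo α β) (m : (S.M γ).carrier),
      ((pr γ m : K γ) : (S.M γ).carrier) = m - P γ m := fun γ m => rfl
  have hpr' : ∀ (γ : Set.Ioo α β) (m : K γ), pr γ (m : (S.M γ).carrier) = m := by
    intro γ m
    apply Subtype.ext
    rw [hpr, (hK γ m).1 m.2, sub_zero]
  have hres : ∀ (γ δ : Set.Ioo α β) (h : (γ : ℚ≥0) < δ), ∀ m ∈ K γ, S.f γ δ h m ∈ K δ := by
    intro γ δ h m hm
    rw [hK] at hm ⊢
    rw [← hc, hm, map_zero]
  -- an embedding of the index set in the interval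
  have hdense : DenselyOrdered (Set.Ioo α β) := inferInstance
  have hnt : Nontrivial (Set.Ioo α β) := by
    obtain ⟨c, hc1, hc2⟩ := exists_between hαβ
    obtain ⟨d, hd1, hd2⟩ := exists_between hc2
    refine ⟨⟨c, hc1, hc2⟩, ⟨d, hc1.trans hd1, hd2⟩, ?_⟩
    intro h
    exact hd1.ne (congrArg Subtype.val h)
  obtain ⟨φ⟩ : Nonempty (ℚ≥0 ↪o Set.Ioo α β) := Order.embedding_from_countable_to_dense _ _
  have hφ : ∀ {p q : ℚ≥0}, p < q → ((φ p : Set.Ioo α β) : ℚ≥0) < (φ q : Set.Ioo α β) := by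
    intro p q h
    exact φ.strictMono h
  let S' : FactSys R n :=
    { M := fun q => ⟨K (φ q)⟩
      a := fun q i => pr (φ q) (S.a (φ q) i)
      f := fun p q h => (S.f (φ p) (φ q) (hφ h)).restrict (hres (φ p) (φ q) (hφ h))
      comp := by
        intro p q r hpq hqr
        apply LinearMap.ext
        intro m
        apply Subtype.ext
        exact S.compApply (hφ hpq) (hφ hqr) (m : (S.M (φ p)).carrier)
      base := by
        intro q hq i
        apply Subtype.ext
        show S.f (φ 0) (φ q) (hφ hq) (S.a (φ 0) i - P (φ 0) (S.a (φ 0) i)) =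
          S.a (φ q) i - P (φ q) (S.a (φ q) i)
        rw [map_sub, hc, S.tup]
      nosplit := by
        rintro p q h ⟨g, hg⟩
        apply S.nosplit (φ p) (φ q) (hφ h)
        refine ⟨(∑ i, (S.f α (φ p) (φ p).2.1 ∘ₗ x i) ∘ₗ (y i ∘ₗ S.f (φ q) β (φ q).2.2)) +
          (K (φ p)).subtype ∘ₗ g ∘ₗ pr (φ q), ?_⟩
        intro i
        have hg' : ((g (pr (φ q) (S.a (φ q) i)) : K (φ p)) : (S.M (φ p)).carrier) =
            S.a (φ p) i - P (φ p) (S.a (φ p) i) := by
          have h2 := hg i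
          have h3 : (S.f (φ p) (φ q) (hφ h)).restrict (hres (φ p) (φ q) (hφ h))
              (pr (φ p) (S.a (φ p) i)) = pr (φ q) (S.a (φ q) i) := by
            apply Subtype.ext
            show S.f (φ p) (φ q) (hφ h) (S.a (φ p) i - P (φ p) (S.a (φ p) i)) =
              S.a (φ q) i - P (φ q) (S.a (φ q) i)
            rw [map_sub, hc, S.tup]
          rw [h3] at h2
          exact congrArg Subtype.val h2
        rw [S.tup, LinearMap.add_apply, LinearMap.sum_apply]
        show (∑ j, S.f α (φ p) (φ p).2.1 (x j (y j (S.f (φ q) β (φ q).2.2 (S.a (φ q) i))))) +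
          ((g (pr (φ q) (S.a (φ q) i)) : K (φ p)) : (S.M (φ p)).carrier) = S.a (φ p) i
        rw [hg']
        have h4 : (∑ j, S.f α (φ p) (φ p).2.1 (x j (y j (S.f (φ q) β (φ q).2.2
            (S.a (φ q) i))))) = P (φ p) (S.a (φ p) i) := by
          rw [hP]
          refine Finset.sum_congr rfl fun j _ => ?_
          rw [S.tup, S.tup]
        rw [h4]
        abel }
  refine ⟨S', ?_⟩
  intro p q h
  by_contra hcon
  obtain ⟨Z, z, w, hZ, hzw⟩ := exists_split _ hcon
  apply hk1 (φ p) (φ q) (hφ h) (φ p).2.1 (φ q).2.2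
  have hzw' : ∀ v : Z.carrier, w ⟨S.f (φ p) (φ q) (hφ h) ((z v : K (φ p)) : (S.M (φ p)).carrier),
      hres (φ p) (φ q) (hφ h) _ (z v).2⟩ = v := fun v => LinearMap.congr_fun hzw v
  let X' : Option (Fin k) → Obj R := fun o => match o with
    | none => Z
    | some i => X i
  let x' : ∀ o, Mor (X' o) (S.M (φ p)) := fun o => match o with
    | none => (K (φ p)).subtype ∘ₗ z
    | some i => S.f α (φ p) (φ p).2.1 ∘ₗ x i
  let y' : ∀ o, Mor (S.M (φ q)) (X' o) := fun o => match o with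
    | none => w ∘ₗ pr (φ q)
    | some i => y i ∘ₗ S.f (φ q) β (φ q).2.2
  refine rankGE_of_fintype (ι := Option (Fin k)) (by simp) X' x' y' ?_ ?_ ?_
  · rintro (_ | i)
    · exact hZ
    · exact hX i
  · rintro (_ | i)
    · apply LinearMap.ext
      intro v
      have h5 : pr (φ q) (S.f (φ p) (φ q) (hφ h) ((z v : K (φ p)) : (S.M (φ p)).carrier)) =
          ⟨S.f (φ p) (φ q) (hφ h) ((z v : K (φ p)) : (S.M (φ p)).carrier),
            hres (φ p) (φ q) (hφ h) _ (z v).2⟩ :=
        hpr' (φ q) ⟨_, hres (φ p) (φ q) (hφ h) _ (z v).2⟩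
      show w (pr (φ q) (S.f (φ p) (φ q) (hφ h) ((z v : K (φ p)) : (S.M (φ p)).carrier))) = v
      rw [h5]
      exact hzw' v
    · apply LinearMap.ext
      intro v
      show y i (S.f (φ q) β (φ q).2.2 (S.f (φ p) (φ q) (hφ h) (S.f α (φ p) (φ p).2.1 (x i v)))) = v
      rw [S.compApply (φ p).2.1 (hφ h), S.compApply _ (φ q).2.2]
      exact h1' i v
  · rintro (_ | i) (_ | j) hij
    · exact absurd rfl hij
    · apply LinearMap.ext
      intro v
      show w (pr (φ q) (S.f (φ p) (φ q) (hφ h) (S.f α (φ p) (φ p).2.1 (x j v)))) = 0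
      have h6 : pr (φ q) (S.f α (φ q) (φ q).2.1 (x j v)) = 0 := by
        apply Subtype.ext
        rw [hpr, hb, sub_self]
        rfl
      rw [S.compApply (φ p).2.1 (hφ h), h6, map_zero]
    · apply LinearMap.ext
      intro v
      show y i (S.f (φ q) β (φ q).2.2 (S.f (φ p) (φ q) (hφ h)
        ((z v : K (φ p)) : (S.M (φ p)).carrier))) = 0
      rw [S.compApply (hφ h) (φ q).2.2, ← ha, (hK _ _).1 (z v).2, map_zero, map_zero]
    · apply LinearMap.ext
      intro v
      show y i (S.f (φ q) β (φ q).2.2 (S.f (φ p) (φ q) (hφ h) (S.f α (φ p) (φ p).2.1 (x j v)))) = 0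
      rw [S.compApply (φ p).2.1 (hφ h), S.compApply _ (φ q).2.2]
      exact h0' i j (fun hh => hij (by rw [hh])) v

/-- a bound for the rank on an interval gives a factorisable system in the radical -/
theorem of_bounded {n : ℕ} (S : FactSys R n) (N : ℕ) (α β : ℚ≥0) (hαβ : α < β)
    (hN : ∀ γ δ (h : γ < δ), α < γ → δ < β → ¬ RankGE (N + 1) (S.f γ δ h)) :
    ∃ S' : FactSys R n, S'.LiesIn (rad R) := by
  let Q : ℕ → Prop := fun k => ∃ γ δ, ∃ h : γ < δ, α < γ ∧ δ < β ∧ RankGE k (S.f γ δ h)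
  have hQ0 : Q 0 := by
    obtain ⟨c, hc1, hc2⟩ := exists_between hαβ
    obtain ⟨d, hd1, hd2⟩ := exists_between hc2
    exact ⟨c, d, hd1, hc1, hd2, fun i => i.elim0, fun i => i.elim0, fun i => i.elim0,
      fun i => i.elim0, fun i => i.elim0, fun i => i.elim0⟩
  have hQN : ¬ Q (N + 1) := by
    rintro ⟨γ, δ, h, h1, h2, h3⟩
    exact hN γ δ h h1 h2 h3
  obtain ⟨k, hk, hk'⟩ : ∃ k, Q k ∧ ¬ Q (k + 1) := by
    by_contra hcon
    push Not at hcon
    have : ∀ k, Q k := by
      intro k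
      induction k with
      | zero => exact hQ0
      | succ k ih => exact hcon k ih
    exact hQN (this _)
  obtain ⟨γ, δ, h, h1, h2, h3⟩ := hk
  refine step S k γ δ h h3 ?_
  intro γ' δ' h' h4 h5 h6
  exact hk' ⟨γ', δ', h', h1.trans h4, h5.trans h2, h6⟩

/-- the restriction of a factorisable system to a copy of `ℚ≥0` -/
def FactSys.sub {n : ℕ} (S : FactSys R n) (φ : ℚ≥0 → ℚ≥0) (hφ : StrictMono φ) : FactSys R n where
  M := fun q => S.M (φ q)
  a := fun q => S.a (φ q)
  f := fun p q h => S.f (φ p) (φ q) (hφ h)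
  comp := fun p q r h1 h2 => S.comp (φ p) (φ q) (φ r) (hφ h1) (hφ h2)
  base := fun q h i => S.tup (hφ h) i
  nosplit := fun p q h => S.nosplit (φ p) (φ q) (hφ h)

/-- a bound for the rank along a copy of `ℚ≥0` gives a factorisable system in the radical -/
theorem of_bounded_sub {n : ℕ} (S : FactSys R n) (N : ℕ) (φ : ℚ≥0 → ℚ≥0) (hφ : StrictMono φ)
    (hN : ∀ p q (h : p < q), ¬ RankGE (N + 1) (S.f (φ p) (φ q) (hφ h))) :
    ∃ S' : FactSys R n, S'.LiesIn (rad R) :=
  of_bounded (S.sub φ hφ) N 0 1 (by norm_num) (fun p q h _ _ => hN p q h)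

/-- maps in the radical have rank zero -/
theorem not_rankGE_of_rad {A B : Obj R} (f : Mor A B) (hf : f ∈ rad R A B) : ¬ RankGE 1 f := by
  rintro ⟨X, x, y, hX, h1, -⟩
  have hu := hf (x 0 ∘ₗ y 0)
  obtain ⟨v, hv⟩ := @exists_ne _ (hX 0) (0 : (X 0).carrier)
  have h2 : y 0 (f (x 0 v)) = v := LinearMap.congr_fun (h1 0) v
  have h3 : (1 - ((x 0 ∘ₗ y 0) ∘ₗ f : Module.End Rᵐᵒᵖ A.carrier)) (x 0 v) = 0 := by
    rw [LinearMap.sub_apply]
    show x 0 v - x 0 (y 0 (f (x 0 v))) = 0
    rw [h2, sub_self]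
  have h4 : x 0 v = 0 := by
    have hinj := ((Module.End.isUnit_iff _).1 hu).1
    apply hinj
    rw [h3, map_zero]
  rw [h4, map_zero, map_zero] at h2
  exact hv h2.symm

theorem radPow_zero : radPow R (0 : Ordinal.{w}) = ((fun _ _ => Set.univ), rad R) := by
  unfold radPow
  exact Ordinal.limitRecOn_zero _ _ _

theorem radPow_succ (ν : Ordinal.{w}) :
    radPow R (ν + 1) = (prod (radPow R ν).1 (radPow R ν).2, (radPow R ν).2) := by
  unfold radPow
  exact Ordinal.limitRecOn_add_one _ _ _ _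

theorem radPow_limit (l : Ordinal.{w}) (hl : Order.IsSuccLimit l) :
    radPow R l = ((fun A B => {f | ∀ μ (_ : μ < l), f ∈ (radPow R μ).1 A B}),
      fun A B => {f | ∀ μ (_ : μ < l), f ∈ (radPow R μ).1 A B}) := by
  unfold radPow
  exact Ordinal.limitRecOn_limit _ _ _ _ hl

/-- a factorisable system in the radical lies in all transfinite powers -/
theorem liesIn_radPow {n : ℕ} (S : FactSys R n) (hS : S.LiesIn (rad R)) (ν : Ordinal.{w}) :
    S.LiesIn (radPow R ν).1 ∧ S.LiesIn (radPow R ν).2 := by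
  induction ν using Ordinal.limitRecOn with
  | zero =>
    rw [radPow_zero]
    exact ⟨fun _ _ _ => Set.mem_univ _, hS⟩
  | add_one ν ih =>
    rw [radPow_succ]
    refine ⟨?_, ih.2⟩
    intro α β h
    obtain ⟨γ, h1, h2⟩ := exists_between h
    apply AddSubmonoid.subset_closure
    exact ⟨S.M γ, S.f γ β h2, S.f α γ h1, ih.1 γ β h2, ih.2 α γ h1, (S.comp α γ β h1 h2).symm⟩
  | limit l hl ih =>
    rw [radPow_limit l hl]
    exact ⟨fun α β h μ hμ => (ih μ hμ).1 α β h, fun α β h μ hμ => (ih μ hμ).1 α β h⟩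

theorem exists_ne_zero {n : ℕ} (S : FactSys R n) : S.f 0 1 (by norm_num) ≠ 0 := by
  intro h0
  have h1 : ∀ i, S.a 1 i = 0 := by
    intro i
    rw [← S.base 1 (by norm_num) i, h0]
    rfl
  apply S.nosplit 1 2 (by norm_num)
  refine ⟨0, fun i => ?_⟩
  rw [h1 i]
  simp

/-- few indecomposable summands: small rank -/
theorem not_rankGE_of_width {N : ℕ} {A B : Obj R} (f : Mor A B) (hA : WidthLE N A) :
    ¬ RankGE (N + 1) f := by
  rintro ⟨X, x, y, hX, h1, h0⟩
  have h1' : ∀ i (v : (X i).carrier), y i (f (x i v)) = v := fun i v =>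
    LinearMap.congr_fun (h1 i) v
  have h0' : ∀ i j, i ≠ j → ∀ v : (X j).carrier, y i (f (x j v)) = 0 :=
    fun i j hij v => LinearMap.congr_fun (h0 i j hij) v
  obtain ⟨i, hi⟩ := hA (fun i => x i ∘ₗ y i ∘ₗ f) (by
    intro i
    apply LinearMap.ext
    intro v
    show x i (y i (f (x i (y i (f v))))) = x i (y i (f v))
    rw [h1']) (by
    intro i j hij
    apply LinearMap.ext
    intro v
    show x i (y i (f (x j (y j (f v))))) = 0
    rw [h0' i j hij, map_zero])
  obtain ⟨v, hv⟩ := @exists_ne _ (hX i) (0 : (X i).carrier)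
  apply hv
  have h2 : x i (y i (f (x i v))) = 0 := LinearMap.congr_fun hi (x i v)
  rw [h1'] at h2
  have h3 := h1' i v
  rw [h2, map_zero, map_zero] at h3
  exact h3.symm

end H39.TR
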